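import Pool.Agent.H95.DR.Targets
import Pool.Agent.H89.FM.Targets1
import Pool.Agent.H21.FM.LF1

/-!
# DFX, row AF1: the twisted `L`-function in terms of the forms of a real quadratic field
-/

set_option autoImplicit false

open MeasureTheory Set Filter NumberField
open scoped Real nonZeroDivisors Matrix MatrixGroups

namespace Pool.Agent.H21.DF

open Pool.Agent.H31.CN Pool.Agent.H89.FM Pool.Agent.H61.FM Pool.Agent.H89.FC Pool.Agent.H95.FC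
open Pool.Agent.H89.DF Pool.Agent.H95.DR

theorem cpow_quot' (k f D : ℕ) (hk : 0 < k) (hf : 0 < f) (hD : 0 < D) (s : ℂ) :
    (((k : ℝ) / (f * Real.sqrt D) : ℝ) : ℂ) ^ (-s) =
      (k : ℂ) ^ (-s) * ((f : ℂ) ^ 2 * D) ^ (s / 2) := by
  have h1 : (f : ℝ) * Real.sqrt D = Real.sqrt ((f ^ 2 * D : ℕ) : ℝ) := by
    push_cast
    rw [Real.sqrt_mul (by positivity), Real.sqrt_sq (by positivity)]
  rw [h1, Pool.Agent.H21.FM.cpow_quot k (f ^ 2 * D) hk (by positivity) s]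
  push_cast
  rfl

/-- the transform of a power -/
theorem kr_pow (κ : ℕ) (m : ℤ) (ν : ℝ) (g s : ℂ) (r : ℝ) (hr : 0 < r) :
    kr κ m ν (fun x : ℝ => g * (x : ℂ) ^ (-s)) r = g * (r : ℂ) ^ (-s) * crr κ m ν s := by
  unfold kr crr
  rw [← integral_const_mul]
  refine integral_congr_ae (Filter.Eventually.of_forall fun τ => ?_)
  simp only
  rw [Complex.ofReal_mul, Complex.mul_cpow_ofReal_nonneg hr.le (Real.cosh_pos τ).le]
  ring

theorem k_bound (g s : ℂ) (r : ℝ) (hr : 0 < r) : ‖g * (r : ℂ) ^ (-s)‖ ≤ ‖g‖ * r ^ (-s.re) := by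
  rw [norm_mul, Complex.norm_cpow_eq_rpow_re_of_pos hr, Complex.neg_re]

theorem k_cont (g s : ℂ) : ContinuousOn (fun r : ℝ => g * (r : ℂ) ^ (-s)) (Ioi 0) := by
  intro r hr
  refine ContinuousAt.continuousWithinAt ?_
  refine continuousAt_const.mul ?_
  exact ContinuousAt.cpow Complex.continuous_ofReal.continuousAt continuousAt_const
    (Complex.ofReal_mem_slitPlane.2 hr)

open Classical in
theorem pf_LF1r (hWCL : T_WCL) (hVANr : T_VANr) (hTWN : Pool.Agent.H95.FC.T_TWN)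
    (hTNB : Pool.Agent.H95.FC.T_TNB) (hFRMr : T_FRMr) (hLC1r : T_LC1r)
    (hEZA : Pool.Agent.H89.FC.T_EZAm) (hLINr : T_LINr) (hLSUr : T_LSUr)
    (hFLS : Pool.Agent.H89.FM.T_FLS) (hGEN : Pool.Agent.H89.FM.T_GEN)
    (hCRT : Pool.Agent.H89.FM.T_CRT) (hHOLr : T_HOLr) (hPBT : T_PBT) (hPBG : T_PBG)
    (_hCRI : Pool.Agent.H89.DF.T_CRI) : T_LF1r := by
  intro K _ _ D f σ σ' κ ν ψ hK hψ R m n hn s A hs hA
  have hn1 : 1 ≤ n := Nat.one_le_iff_ne_zero.2 hn.ne_zero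
  have hn0 : (0 : ℝ) < n := by exact_mod_cast hn1
  have hf : 0 < f := hψ.pos
  have hf0 : (0 : ℝ) < f := by exact_mod_cast hf
  have hD := hK.pos
  have hD0 : (0 : ℝ) < D := by exact_mod_cast hD
  have hnf : 1 ≤ n * f := Nat.one_le_iff_ne_zero.2 (by positivity)
  have hI : ∀ c, (R.I c : Ideal (𝓞 K)) ≠ ⊥ := fun c => by
    have h1 := nonZeroDivisors.ne_zero (R.I c).2
    rwa [Ideal.zero_eq_bot] at h1
  have hPB : ∀ c, PB σ σ' (Ideal.absNorm (R.I c : Ideal (𝓞 K))) (R.α c) (R.β c) (R.Q c) :=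
    fun c => (hPBT K σ σ').1 _ _ _ _ (hI c) (R.ob c)
  -- the exponential factor
  obtain ⟨e, he⟩ : ∃ e : ℝ → ℂ, e = fun τ : ℝ =>
    Complex.exp (-(((ν * τ : ℝ) : ℂ) * Complex.I)) := ⟨_, rfl⟩
  have hec : Continuous e := by
    rw [he]
    fun_prop
  have hFc : ∀ c, ∀ L ∈ Ls (n * f), Continuous (Fr σ σ' κ m s (n * f) L (R.α c) (R.β c)) :=
    fun c L hL => (hHOLr K σ σ' _ _ _ _ (hPB c) κ m (n * f) L hnf hL).1 s
  -- the sum over the sublattices of the line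
  have stepA : ∀ c, ∀ V ∈ R.T c, ∀ τ : ℝ, R.G κ m s n c V τ =
      ∑ L ∈ Tn n f (R.Q c) V, Fr σ σ' κ m s (n * f) L (R.α c) (R.β c) τ := by
    intro c V hV τ
    have hdet := (R.lt c).one V hV
    rw [← hTNB n f (R.Q c) V (R.W c V)
      (fun L => Fr σ σ' κ m s (n * f) L (R.α c) (R.β c) τ) hn1 hf hdet]
    unfold DD.G DD.fo DD.v₁ DD.v₂
    exact Finset.sum_congr rfl fun L _ =>
      hFRMr K σ σ' _ _ _ _ (hI c) (R.ob c) κ m s n f V (R.W c V) L τ hn1 hf hdet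
  have hRE : R.E κ m ν ψ n s = (R.n : ℂ)⁻¹ * ∑ c, ∑ V ∈ R.T c, R.ρ κ ν ψ c V *
      ∫ τ in (0 : ℝ)..R.P, (∑ L ∈ Tn n f (R.Q c) V,
        Fr σ σ' κ m s (n * f) L (R.α c) (R.β c) τ) * e τ := by
    unfold DD.E DD.J
    congr 1
    rw [Finset.sum_sigma]
    refine Finset.sum_congr rfl fun c _ => Finset.sum_congr rfl fun V hV => ?_
    congr 1
    refine intervalIntegral.integral_congr fun τ _ => ?_
    simp only
    rw [stepA c V hV τ, he]
  rw [hRE]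
  have hint : ∀ c (S : Finset (AddSubgroup (ℤ × ℤ))), (∀ L ∈ S, L ∈ Ls (n * f)) →
      ∫ τ in (0 : ℝ)..R.P, (∑ L ∈ S, Fr σ σ' κ m s (n * f) L (R.α c) (R.β c) τ) * e τ =
        ∑ L ∈ S, ∫ τ in (0 : ℝ)..R.P, Fr σ σ' κ m s (n * f) L (R.α c) (R.β c) τ * e τ := by
    intro c S hS
    rw [← intervalIntegral.integral_finsetSum]
    · refine intervalIntegral.integral_congr fun τ _ => ?_
      exact Finset.sum_mul _ _ _
    · intro L hL
      exact ((hFc c L (hS L hL)).mul hec).intervalIntegrable _ _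
  have hTnS : ∀ c V, ∀ L ∈ Tn n f (R.Q c) V, L ∈ Ls (n * f) := by
    intro c V L hL
    exact (Finset.mem_filter.1 hL).1
  by_cases hcop : Nat.Coprime n f
  swap
  · obtain ⟨p, hp, hpn, hpf⟩ := Nat.Prime.not_coprime_iff_dvd.1 hcop
    have h1 : ∑ c, ∑ V ∈ R.T c, R.ρ κ ν ψ c V *
      ∫ τ in (0 : ℝ)..R.P, (∑ L ∈ Tn n f (R.Q c) V,
        Fr σ σ' κ m s (n * f) L (R.α c) (R.β c) τ) * e τ = 0 :=
      Finset.sum_eq_zero fun c _ => by
        have h2 := hVANr K σ σ' f κ ν ψ (R.I c) (R.α c) (R.β c) (R.Q c) (R.b c) (R.T c) (R.W c)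
          (R.ob c) (R.vb c) (R.lt c) hψ n p
          (fun L => ∫ τ in (0 : ℝ)..R.P, Fr σ σ' κ m s (n * f) L (R.α c) (R.β c) τ * e τ)
          hp hpn hpf
        rw [← h2]
        refine Finset.sum_congr rfl fun V _ => ?_
        rw [hint c _ (hTnS c V)]
        rfl
    rw [h1, mul_zero, (hLC1r K σ σ' f κ ν ψ hψ).2.1 n hcop, zero_mul]
  -- the lattices of the ideals
  have hlat : ∀ (c : ClassGroup (𝓞 K)) (P : (Ideal (𝓞 K))⁰), nm P = n →
      lt K (R.α c) (R.β c) ((P : Ideal (𝓞 K)) * R.I c) ∈ Ls n ∧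
      Dv n (lt K (R.α c) (R.β c) ((P : Ideal (𝓞 K)) * R.I c)) (R.Q c) := by
    intro c P hP
    obtain ⟨h1, h2, -⟩ := hLINr K D σ σ' hK (R.I c) P (R.α c) (R.β c) (R.Q c) (R.ob c)
    rw [hP] at h1 h2
    exact ⟨((hFLS n _ hn1).1).2 h1, h2⟩
  have hlw : ∀ c, ∀ V ∈ R.T c, Lw f V ∈ Ls f := by
    intro c V hV
    refine hGEN.1 f V hf ?_
    have hg : Int.gcd V.1 V.2 = 1 := by
      rw [← Int.isCoprime_iff_gcd_eq_one]
      have hdet := (R.lt c).one V hV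
      refine ⟨(R.W c V).2, -(R.W c V).1, ?_⟩
      unfold det at hdet
      linarith
    rw [hg]
    exact Nat.coprime_one_left f
  have hinf : ∀ (c : ClassGroup (𝓞 K)) (P : (Ideal (𝓞 K))⁰) (V : ℤ × ℤ), nm P = n → V ∈ R.T c →
      lt K (R.α c) (R.β c) ((P : Ideal (𝓞 K)) * R.I c) ⊓ Lw f V ∈ Ls (n * f) := fun c P V hP hV =>
    (hCRT n f hn1 hf hcop).1 _ (hlat c P hP).1 _ (hlw c V hV)
  have step1 : ∀ c, ∀ V ∈ R.T c, ∀ τ : ℝ, ∑ L ∈ Tn n f (R.Q c) V,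
      Fr σ σ' κ m s (n * f) L (R.α c) (R.β c) τ = ∑ P ∈ Nn K n,
      Fr σ σ' κ m s (n * f) (lt K (R.α c) (R.β c) ((P : Ideal (𝓞 K)) * R.I c) ⊓ Lw f V)
        (R.α c) (R.β c) τ := by
    intro c V hV τ
    rw [hTWN n f (R.Q c) V (R.W c V) (fun L => Fr σ σ' κ m s (n * f) L (R.α c) (R.β c) τ)
      hn1 hf hcop ((R.lt c).one V hV)]
    symm
    refine Finset.sum_bij (fun P _ => lt K (R.α c) (R.β c) ((P : Ideal (𝓞 K)) * R.I c)) ?_ ?_ ?_ ?_
    · intro P hP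
      rw [mem_Nn] at hP
      exact Finset.mem_filter.2 (hlat c P hP)
    · intro P _ P' _ he
      obtain ⟨-, -, h3⟩ := hLINr K D σ σ' hK (R.I c) P' (R.α c) (R.β c) (R.Q c) (R.ob c)
      exact h3 P he
    · intro L hL
      rw [Finset.mem_filter] at hL
      obtain ⟨P, hP, hPL⟩ := hLSUr K D σ σ' hK (R.I c) (R.α c) (R.β c) (R.Q c) (R.ob c) n L hn
        (((hFLS n _ hn1).1).1 hL.1) hL.2
      exact ⟨P, mem_Nn.2 hP, hPL⟩
    · intro P _
      rfl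
  -- the integrals
  obtain ⟨B, hB⟩ : ∃ B : ClassGroup (𝓞 K) → (Ideal (𝓞 K))⁰ → ℂ,
    B = fun (c : ClassGroup (𝓞 K)) (P : (Ideal (𝓞 K))⁰) =>
    (R.n : ℂ)⁻¹ * ∑ V ∈ R.T c, R.ρ κ ν ψ c V * ∫ τ in (0 : ℝ)..R.P,
      Fr σ σ' κ m s (n * f) (lt K (R.α c) (R.β c) ((P : Ideal (𝓞 K)) * R.I c) ⊓ Lw f V)
        (R.α c) (R.β c) τ * e τ := ⟨_, rfl⟩
  have step2 : (R.n : ℂ)⁻¹ * ∑ c, ∑ V ∈ R.T c, R.ρ κ ν ψ c V *
      ∫ τ in (0 : ℝ)..R.P, (∑ L ∈ Tn n f (R.Q c) V,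
        Fr σ σ' κ m s (n * f) L (R.α c) (R.β c) τ) * e τ = ∑ P ∈ Nn K n, ∑ c, B c P := by
    rw [Finset.sum_comm, Finset.mul_sum]
    refine Finset.sum_congr rfl fun c _ => ?_
    rw [hB]
    simp only
    rw [← Finset.mul_sum, Finset.sum_comm]
    congr 1
    refine Finset.sum_congr rfl fun V hV => ?_
    rw [← Finset.mul_sum]
    congr 1
    rw [← intervalIntegral.integral_finsetSum]
    · refine intervalIntegral.integral_congr fun τ _ => ?_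
      rw [step1 c V hV τ, Finset.sum_mul]
    · intro P hP
      rw [mem_Nn] at hP
      exact ((hFc c _ (hinf c P V hP hV)).mul hec).intervalIntegrable _ _
  rw [step2]
  -- the sums over the ideals of a class
  obtain ⟨k, hk⟩ : ∃ k : ℝ → ℂ, k = fun r : ℝ => gM m.natAbs s * (r : ℂ) ^ (-s) := ⟨_, rfl⟩
  have hBs : ∀ (c : ClassGroup (𝓞 K)) (P : (Ideal (𝓞 K))⁰), nm P = n →
      HasSum (fun J : (Ideal (𝓞 K))⁰ => if ClassGroup.mk0 J = (c * ClassGroup.mk0 P)⁻¹ then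
        ψ P * ψ J * kr κ m ν k ((nm J : ℝ) * nm P / (((n * f : ℕ) : ℝ) * Real.sqrt D)) else 0)
        (B c P) := by
    intro c P hP
    have h1 := hWCL K D f σ σ' κ ν ψ hK hψ R c P m (n * f) k ‖gM m.natAbs s‖ s.re
      (fun V τ => Fr σ σ' κ m s (n * f)
        (lt K (R.α c) (R.β c) ((P : Ideal (𝓞 K)) * R.I c) ⊓ Lw f V) (R.α c) (R.β c) τ)
      hnf (by rw [hk]; exact k_cont _ _) hs (fun r hr => by rw [hk]; exact k_bound _ _ _ hr) ?_
    · rw [hB]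
      simp only
      rw [he]
      exact h1
    · intro V hV τ
      have hy := (((hPBG K σ σ' _ _ _ _ (hPB c)).2.2) τ).1
      obtain ⟨-, h3⟩ := hEZA m (n * f) _ (zp σ σ' τ (R.α c) (R.β c)).re
        (zp σ σ' τ (R.α c) (R.β c)).im hnf (hinf c P V hP hV) hy
      obtain ⟨-, h4⟩ := hEZA (-m) (n * f) _ (zp σ σ' τ (R.α c) (R.β c)).re
        (zp σ σ' τ (R.α c) (R.β c)).im hnf (hinf c P V hP hV) hy
      obtain ⟨a₁, ha₁, hE₁⟩ := h3 s hs
      obtain ⟨a₂, ha₂, hE₂⟩ := h4 s hs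
      rw [Int.natAbs_neg] at hE₂
      have h5 := ((ha₁.mul_left (wp σ σ' τ (R.α c) ^ m * gM m.natAbs s)).add
        (ha₂.mul_left ((-1) ^ κ * wp σ σ' τ (R.α c) ^ (-m) * gM m.natAbs s))).div_const 2
      unfold Fr
      rw [hE₁, hE₂]
      have h6 : (wp σ σ' τ (R.α c) ^ m * (gM m.natAbs s * a₁) +
          (-1) ^ κ * wp σ σ' τ (R.α c) ^ (-m) * (gM m.natAbs s * a₂)) / 2 =
          (wp σ σ' τ (R.α c) ^ m * gM m.natAbs s * a₁ +
            (-1) ^ κ * wp σ σ' τ (R.α c) ^ (-m) * gM m.natAbs s * a₂) / 2 := by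
        ring
      rw [h6]
      refine h5.congr_fun ?_
      intro v
      have hiff : (v ∈ lt K (R.α c) (R.β c) ((P : Ideal (𝓞 K)) * R.I c) ⊓ Lw f V ∧ v ≠ 0) ↔
          (v ∈ lt K (R.α c) (R.β c) ((P : Ideal (𝓞 K)) * R.I c) ∧ (f : ℤ) ∣ det V v ∧ v ≠ 0) := by
        rw [AddSubgroup.mem_inf, and_assoc]
        rfl
      by_cases h5 : v ∈ lt K (R.α c) (R.β c) ((P : Ideal (𝓞 K)) * R.I c) ⊓ Lw f V ∧ v ≠ 0
      · rw [if_pos h5, if_pos h5, if_pos (hiff.1 h5), hk]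
        ring
      · rw [if_neg h5, if_neg h5, if_neg (fun h6 => h5 (hiff.2 h6))]
        ring
  have hkr : ∀ (J P : (Ideal (𝓞 K))⁰), nm P = n →
      kr κ m ν k ((nm J : ℝ) * nm P / (((n * f : ℕ) : ℝ) * Real.sqrt D)) =
      gM m.natAbs s * crr κ m ν s * ((f : ℂ) ^ 2 * D) ^ (s / 2) *
        (Ideal.absNorm (J : Ideal (𝓞 K)) : ℂ) ^ (-s) := by
    intro J P hP
    have hJ : 0 < nm J := Ideal.absNorm_pos_of_nonZeroDivisors J
    have hJ0 : (0 : ℝ) < nm J := by exact_mod_cast hJ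
    have h1 : (nm J : ℝ) * nm P / (((n * f : ℕ) : ℝ) * Real.sqrt D) =
        (nm J : ℝ) / (f * Real.sqrt D) := by
      rw [hP]
      push_cast
      field_simp
    have hpos : 0 < (nm J : ℝ) / (f * Real.sqrt D) := by positivity
    rw [h1, hk, kr_pow κ m ν _ s _ hpos, cpow_quot' _ _ _ hJ hf hD]
    unfold nm
    ring
  have step3 : ∀ P ∈ Nn K n, ∑ c, B c P =
      ψ P * (gM m.natAbs s * crr κ m ν s * ((f : ℂ) ^ 2 * D) ^ (s / 2) * A) := by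
    intro P hP
    rw [mem_Nn] at hP
    have h1 : HasSum (fun J : (Ideal (𝓞 K))⁰ => ∑ c : ClassGroup (𝓞 K),
        (if ClassGroup.mk0 J = (c * ClassGroup.mk0 P)⁻¹ then ψ P * ψ J *
          kr κ m ν k ((nm J : ℝ) * nm P / (((n * f : ℕ) : ℝ) * Real.sqrt D)) else 0))
        (∑ c, B c P) := hasSum_sum fun c _ => hBs c P hP
    have h2 := hA.mul_left (ψ P * (gM m.natAbs s * crr κ m ν s * ((f : ℂ) ^ 2 * D) ^ (s / 2)))
    have h3 : (fun J : (Ideal (𝓞 K))⁰ => ∑ c : ClassGroup (𝓞 K),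
        (if ClassGroup.mk0 J = (c * ClassGroup.mk0 P)⁻¹ then ψ P * ψ J *
          kr κ m ν k ((nm J : ℝ) * nm P / (((n * f : ℕ) : ℝ) * Real.sqrt D)) else 0)) =
        fun J : (Ideal (𝓞 K))⁰ =>
          ψ P * (gM m.natAbs s * crr κ m ν s * ((f : ℂ) ^ 2 * D) ^ (s / 2)) * (ψ J *
          (Ideal.absNorm (J : Ideal (𝓞 K)) : ℂ) ^ (-s)) := by
      funext J
      rw [Finset.sum_eq_single ((ClassGroup.mk0 J * ClassGroup.mk0 P)⁻¹)]
      · have e1 : ClassGroup.mk0 J = ((ClassGroup.mk0 J * ClassGroup.mk0 P)⁻¹ *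
            ClassGroup.mk0 P)⁻¹ := by
          rw [mul_inv_rev, inv_inv, mul_comm (ClassGroup.mk0 J), inv_mul_cancel_left]
        rw [if_pos e1, hkr J P hP]
        ring
      · intro c _ hc
        rw [if_neg]
        intro h4
        apply hc
        rw [h4, mul_inv, inv_inv]
        group
      · intro h4
        exact absurd (Finset.mem_univ _) h4
    rw [h3] at h1
    rw [h1.unique h2]
    ring
  rw [Finset.sum_congr rfl step3]
  unfold lc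
  rw [Finset.sum_mul]

end Pool.Agent.H21.DF
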